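import Mathlib

set_option autoImplicit false

/-!
# Plane embeddings of multigraphs and outerplanar multigraphs

A multigraph with the vertices `V` and the edges `E` is given by the ends `ends e = (u, v)` of its
edges. The plane is `ℂ`.
-/

namespace Run7.h773.OT

/-- A planar embedding of the multigraph: the vertices are drawn as different points, the edges as
curves (parametrised by `[0, 1]`) which join their ends; the curves are simple (closed curves for
loops), their inner points are not vertices, and different curves have no common inner points. -/
structure Embedding {V E : Type} (ends : E → V × V) where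
  /-- the points of the vertices -/
  pos : V → ℂ
  /-- the curves of the edges -/
  curve : E → ℝ → ℂ
  pos_injective : Function.Injective pos
  continuousOn : ∀ e, ContinuousOn (curve e) (Set.Icc 0 1)
  curve_zero : ∀ e, curve e 0 = pos (ends e).1
  curve_one : ∀ e, curve e 1 = pos (ends e).2
  injOn : ∀ e, Set.InjOn (curve e) (Set.Ioo 0 1)
  ne_pos : ∀ e, ∀ t ∈ Set.Ioo (0 : ℝ) 1, ∀ v, curve e t ≠ pos v
  ne_curve : ∀ e f, e ≠ f → ∀ s ∈ Set.Ioo (0 : ℝ) 1, ∀ t ∈ Set.Ioo (0 : ℝ) 1, curve e s ≠ curve f t

/-- The set of the points of all vertices and edges. -/
def Embedding.drawn {V E : Type} {ends : E → V × V} (D : Embedding ends) : Set ℂ :=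
  Set.range D.pos ∪ ⋃ e, D.curve e '' Set.Icc 0 1

/-- The outer face of a drawing `K`: the points outside of `K` whose connected component in the
complement of `K` is unbounded. -/
def outerFace (K : Set ℂ) : Set ℂ := {z | z ∈ Kᶜ ∧ ¬ Bornology.IsBounded (connectedComponentIn Kᶜ z)}

/-- The multigraph is outerplanar: it has a planar embedding in which every vertex lies on the
boundary of the outer face. -/
def IsOuterplanar {V E : Type} (ends : E → V × V) : Prop :=
  ∃ D : Embedding ends, ∀ v, D.pos v ∈ frontier (outerFace D.drawn)

end Run7.h773.OT
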