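import Pool.Agent.Run7.h773.OT.Defs

set_option autoImplicit false

/-!
# A layout on a line shows that a multigraph is outerplanar
-/

namespace Run7.h773.OT

open Complex

/-- The curve over the interval `[a, b]` with the factor `l`. -/
noncomputable def arch (a b l t : ℝ) : ℂ := ⟨a + (b - a) * t, l * (b - a) ^ 2 * (t * (1 - t))⟩

theorem continuous_arch (a b l : ℝ) : Continuous (arch a b l) := by
  have : arch a b l = fun t : ℝ =>
      ((a + (b - a) * t : ℝ) : ℂ) + ((l * (b - a) ^ 2 * (t * (1 - t)) : ℝ) : ℂ) * I := by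
    funext t
    exact Complex.mk_eq_add_mul_I _ _
  rw [this]
  fun_prop

/-- nested intervals -/
theorem arch_lt {a b c d x : ℝ} (h1 : c ≤ a) (h2 : b ≤ d) (h3 : a < x) (h4 : x < b)
    (h5 : c < a ∨ b < d) : (x - a) * (b - x) < (x - c) * (d - x) := by
  rcases h5 with h | h
  · have e1 : (x - a) * (b - x) ≤ (x - a) * (d - x) := by
      apply mul_le_mul_of_nonneg_left <;> linarith
    have e2 : (x - a) * (d - x) < (x - c) * (d - x) := by
      apply mul_lt_mul_of_pos_right <;> linarith
    linarith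
  · have e1 : (x - a) * (b - x) < (x - a) * (d - x) := by
      apply mul_lt_mul_of_pos_left <;> linarith
    have e2 : (x - a) * (d - x) ≤ (x - c) * (d - x) := by
      apply mul_le_mul_of_nonneg_right <;> linarith
    linarith

/-- The edges `(a, b)` and `(c, d)` with the factors `l` and `m` do not cross: the intervals have
disjoint interiors, or are equal and the factors are different, or one is a proper subinterval of
the other and its factor is not larger. -/
def Fine (a b l c d m : ℤ) : Prop :=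
  b ≤ c ∨ d ≤ a ∨ (a = c ∧ b = d ∧ l ≠ m) ∨ (c ≤ a ∧ b ≤ d ∧ (c < a ∨ b < d) ∧ l ≤ m) ∨
    (a ≤ c ∧ d ≤ b ∧ (a < c ∨ d < b) ∧ m ≤ l)

instance (a b l c d m : ℤ) : Decidable (Fine a b l c d m) := by
  unfold Fine; infer_instance

theorem arch_ne {a b l c d m : ℤ} (hab : a < b) (hcd : c < d) (hl : 0 < l) (hm : 0 < m)
    (h : Fine a b l c d m) {s t : ℝ} (hs : s ∈ Set.Ioo (0 : ℝ) 1) (ht : t ∈ Set.Ioo (0 : ℝ) 1) :
    arch a b l s ≠ arch c d m t := by
  intro he
  have hre := congrArg Complex.re he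
  have him := congrArg Complex.im he
  simp only [arch] at hre him
  obtain ⟨hs0, hs1⟩ := hs
  obtain ⟨ht0, ht1⟩ := ht
  have hab' : (a : ℝ) < b := by exact_mod_cast hab
  have hcd' : (c : ℝ) < d := by exact_mod_cast hcd
  have hl' : (0 : ℝ) < l := by exact_mod_cast hl
  have hm' : (0 : ℝ) < m := by exact_mod_cast hm
  set x : ℝ := a + (b - a) * s with hx
  have e1 : (l : ℝ) * (b - a) ^ 2 * (s * (1 - s)) = l * ((x - a) * (b - x)) := by rw [hx]; ring
  have e2 : (m : ℝ) * (d - c) ^ 2 * (t * (1 - t)) = m * ((x - c) * (d - x)) := by rw [hre]; ring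
  rw [e1, e2] at him
  have hxa : (a : ℝ) < x := by rw [hx]; nlinarith
  have hxb : x < (b : ℝ) := by rw [hx]; nlinarith
  have hxc : (c : ℝ) < x := by rw [hre]; nlinarith
  have hxd : x < (d : ℝ) := by rw [hre]; nlinarith
  have p1 : 0 < (x - a) * (b - x) := mul_pos (by linarith) (by linarith)
  have p2 : 0 < (x - c) * (d - x) := mul_pos (by linarith) (by linarith)
  rcases h with h | h | ⟨h1, h2, h3⟩ | ⟨h1, h2, h3, h4⟩ | ⟨h1, h2, h3, h4⟩
  · have : (b : ℝ) ≤ c := by exact_mod_cast h
    linarith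
  · have : (d : ℝ) ≤ a := by exact_mod_cast h
    linarith
  · subst h1 h2
    have : (l : ℝ) = m := mul_right_cancel₀ p1.ne' him
    exact h3 (by exact_mod_cast this)
  · have h1' : (c : ℝ) ≤ a := by exact_mod_cast h1
    have h2' : (b : ℝ) ≤ d := by exact_mod_cast h2
    have h3' : (c : ℝ) < a ∨ (b : ℝ) < d := by exact_mod_cast h3
    have h4' : (l : ℝ) ≤ m := by exact_mod_cast h4
    have := arch_lt h1' h2' hxa hxb h3'
    nlinarith
  · have h1' : (a : ℝ) ≤ c := by exact_mod_cast h1
    have h2' : (d : ℝ) ≤ b := by exact_mod_cast h2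
    have h3' : (a : ℝ) < c ∨ (d : ℝ) < b := by exact_mod_cast h3
    have h4' : (m : ℝ) ≤ l := by exact_mod_cast h4
    have := arch_lt h1' h2' hxc hxd h3'
    nlinarith

variable {V E : Type}

/-- The embedding given by a layout on a line. -/
noncomputable def ofLayout (ends : E → V × V) (x : V → ℤ) (l : E → ℤ) (hx : Function.Injective x)
    (hlt : ∀ e, x (ends e).1 < x (ends e).2) (hl : ∀ e, 0 < l e)
    (hf : ∀ e f, e ≠ f →
      Fine (x (ends e).1) (x (ends e).2) (l e) (x (ends f).1) (x (ends f).2) (l f)) :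
    Embedding ends where
  pos v := ((x v : ℝ) : ℂ)
  curve e := arch (x (ends e).1) (x (ends e).2) (l e)
  pos_injective u v h := hx (by
    have h' := congrArg Complex.re h
    simp only [ofReal_re] at h'
    exact_mod_cast h')
  continuousOn e := by
    exact (continuous_arch _ _ _).continuousOn
  curve_zero e := by apply Complex.ext <;> simp [arch]
  curve_one e := by apply Complex.ext <;> simp [arch]
  injOn e s _ t _ h := by
    have hre := congrArg Complex.re h
    simp only [arch] at hre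
    have : (x (ends e).1 : ℝ) < x (ends e).2 := by exact_mod_cast hlt e
    have h2 : ((x (ends e).2 : ℝ) - x (ends e).1) ≠ 0 := by linarith
    exact mul_left_cancel₀ h2 (by linarith)
  ne_pos e t ht v h := by
    have him := congrArg Complex.im h
    simp only [arch, ofReal_im] at him
    have h1 : (x (ends e).1 : ℝ) < x (ends e).2 := by exact_mod_cast hlt e
    have h2 : (0 : ℝ) < l e := by exact_mod_cast hl e
    have h3 : 0 < (l e : ℝ) * ((x (ends e).2 : ℝ) - x (ends e).1) ^ 2 * (t * (1 - t)) := by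
      have := ht.1
      have := ht.2
      have h4 : 0 < (x (ends e).2 : ℝ) - x (ends e).1 := by linarith
      have h5 : 0 < 1 - t := by linarith
      positivity
    linarith
  ne_curve e f hef s hs t ht := arch_ne (hlt e) (hlt f) (hl e) (hl f) (hf e f hef) hs ht

/-- The lower half plane. -/
theorem outer_of_im_neg {K : Set ℂ} (hK : ∀ z ∈ K, 0 ≤ z.im) {z : ℂ} (hz : z.im < 0) :
    z ∈ outerFace K := by
  have hsub : {w : ℂ | w.im < 0} ⊆ Kᶜ := fun w hw hwK => absurd (hK w hwK) (not_le.2 hw)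
  refine ⟨hsub hz, fun hb => ?_⟩
  have hconn : IsPreconnected {w : ℂ | w.im < 0} := by
    have : Convex ℝ {w : ℂ | w.im < 0} := convex_halfSpace_im_lt 0
    exact this.isPreconnected
  have h1 : {w : ℂ | w.im < 0} ⊆ connectedComponentIn Kᶜ z :=
    hconn.subset_connectedComponentIn hz hsub
  obtain ⟨C, hC⟩ := (hb.subset h1).exists_norm_le
  have h2 := hC (⟨0, -(|C| + 1)⟩ : ℂ) (by
    show -(|C| + 1) < 0
    have := abs_nonneg C
    linarith)
  have h3 := (Complex.abs_im_le_norm (⟨0, -(|C| + 1)⟩ : ℂ)).trans h2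
  simp only [abs_neg] at h3
  rw [abs_of_nonneg (by positivity)] at h3
  have := le_abs_self C
  linarith

theorem isOuterplanar_of_layout (ends : E → V × V) (x : V → ℤ) (l : E → ℤ)
    (hx : Function.Injective x) (hlt : ∀ e, x (ends e).1 < x (ends e).2) (hl : ∀ e, 0 < l e)
    (hf : ∀ e f, e ≠ f →
      Fine (x (ends e).1) (x (ends e).2) (l e) (x (ends f).1) (x (ends f).2) (l f)) :
    IsOuterplanar ends := by
  refine ⟨ofLayout ends x l hx hlt hl hf, fun v => ?_⟩
  set D := ofLayout ends x l hx hlt hl hf with hD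
  have hK : ∀ z ∈ D.drawn, 0 ≤ z.im := by
    rintro z (⟨u, rfl⟩ | hz)
    · show 0 ≤ (((x u : ℝ) : ℂ)).im
      simp
    · rw [Set.mem_iUnion] at hz
      obtain ⟨e, t, ht, rfl⟩ := hz
      show 0 ≤ (l e : ℝ) * ((x (ends e).2 : ℝ) - x (ends e).1) ^ 2 * (t * (1 - t))
      have h2 : (0 : ℝ) < l e := by exact_mod_cast hl e
      have h3 := ht.1
      have h4 : 0 ≤ 1 - t := by linarith [ht.2]
      positivity
  have hvK : D.pos v ∈ D.drawn := Or.inl ⟨v, rfl⟩
  refine ⟨?_, fun hint => (interior_subset hint).1 hvK⟩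
  rw [Metric.mem_closure_iff]
  intro ε hε
  refine ⟨D.pos v - ((ε / 2 : ℝ) : ℂ) * I, outer_of_im_neg hK ?_, ?_⟩
  · show ((((x v : ℝ) : ℂ)) - ((ε / 2 : ℝ) : ℂ) * I).im < 0
    simp
    linarith
  · rw [dist_eq_norm]
    have : D.pos v - (D.pos v - ((ε / 2 : ℝ) : ℂ) * I) = ((ε / 2 : ℝ) : ℂ) * I := by ring
    rw [this, norm_mul, Complex.norm_real, Complex.norm_I, mul_one, Real.norm_of_nonneg (by linarith)]
    linarith

end Run7.h773.OT
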