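import Pool.Agent.Run7.h773.OT.Defs
import Pool.Agent.Helper805.CHS.Drawn

set_option autoImplicit false

/-!
# A multigraph which is not outerplanar

The van Kampen obstruction for `K₃,₃` (`Pool.Agent.Helper805.CHS.VK.k33_joined`) applied to the
embedding and a point of the outer face.
-/

namespace Run7.h773.OT

open Complex Set Metric

/-- Points outside of a large disc are joined outside of the disc. -/
theorem joined_outside {R : ℝ} {w : ℂ} (hw : R < ‖w‖) :
    JoinedIn (closedBall (0 : ℂ) R)ᶜ w ((R + 1 : ℝ) : ℂ) := by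
  let f : ℝ → ℂ := fun t =>
    (((1 - t) * ‖w‖ + t * (R + 1) : ℝ) : ℂ) * Complex.exp (((1 - t) * arg w : ℝ) * I)
  refine JoinedIn.ofLine (f := f) ?_ ?_ ?_ ?_
  · apply Continuous.continuousOn
    fun_prop
  · simp only [f]
    simp
  · simp only [f]
    simp
  · rintro _ ⟨t, ht, rfl⟩
    rw [mem_compl_iff, mem_closedBall, dist_zero_right, not_le]
    simp only [f]
    rw [norm_mul, Complex.norm_exp_ofReal_mul_I, mul_one, Complex.norm_real, Real.norm_eq_abs]
    refine lt_of_lt_of_le ?_ (le_abs_self _)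
    have h0 := ht.1
    have h1 := ht.2
    rcases h0.eq_or_lt with h | h
    · rw [← h]; simpa using hw
    · nlinarith

/-- Points of the outer face are joined to the point `R + 1`. -/
theorem joined_outer {K : Set ℂ} (hK : IsClosed K) {R : ℝ} (hKR : K ⊆ closedBall 0 R)
    {z : ℂ} (hz : z ∈ outerFace K) : JoinedIn Kᶜ z ((R + 1 : ℝ) : ℂ) := by
  obtain ⟨hz1, hz2⟩ := hz
  obtain ⟨w, hw1, hw2⟩ : ∃ w ∈ connectedComponentIn Kᶜ z, R < ‖w‖ := by
    by_contra hcon
    push Not at hcon
    apply hz2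
    refine (isBounded_closedBall (x := (0 : ℂ)) (r := R)).subset fun w hw => ?_
    rw [mem_closedBall, dist_zero_right]
    exact hcon w hw
  have hop : IsOpen (connectedComponentIn Kᶜ z) := hK.isOpen_compl.connectedComponentIn
  have hcon : IsConnected (connectedComponentIn Kᶜ z) :=
    ⟨⟨z, mem_connectedComponentIn hz1⟩, isPreconnected_connectedComponentIn⟩
  have hpc := (hop.isConnected_iff_isPathConnected).1 hcon
  have h1 : JoinedIn Kᶜ z w :=
    (hpc.joinedIn z (mem_connectedComponentIn hz1) w hw1).mono (connectedComponentIn_subset _ _)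
  exact h1.trans ((joined_outside hw2).mono (compl_subset_compl.2 hKR))

variable {V E : Type} {ends : E → V × V} (D : Embedding ends)

/-- The points of an edge. -/
def Embedding.arc (e : E) : Set ℂ := D.curve e '' Icc 0 1

theorem Embedding.isCompact_arc (e : E) : IsCompact (D.arc e) :=
  isCompact_Icc.image_of_continuousOn (D.continuousOn e)

theorem Embedding.joined (e : E) : JoinedIn (D.arc e) (D.pos (ends e).1) (D.pos (ends e).2) :=
  JoinedIn.ofLine (D.continuousOn e) (D.curve_zero e) (D.curve_one e) Subset.rfl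

theorem Embedding.pos_mem_arc {e : E} {v : V} (h : D.pos v ∈ D.arc e) :
    v = (ends e).1 ∨ v = (ends e).2 := by
  obtain ⟨t, ht, he⟩ := h
  rcases ht.1.eq_or_lt with h0 | h0
  · left
    rw [← h0, D.curve_zero] at he
    exact (D.pos_injective he).symm
  · rcases ht.2.eq_or_lt with h1 | h1
    · right
      rw [h1, D.curve_one] at he
      exact (D.pos_injective he).symm
    · exact absurd he (D.ne_pos e t ⟨h0, h1⟩ v)

theorem Embedding.disjoint_arc {e f : E} (hef : e ≠ f)
    (h : ∀ v, (v = (ends e).1 ∨ v = (ends e).2) → (v = (ends f).1 ∨ v = (ends f).2) → False) :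
    Disjoint (D.arc e) (D.arc f) := by
  rw [Set.disjoint_left]
  rintro z ⟨s, hs, rfl⟩ ⟨t, ht, he⟩
  -- a vertex on both arcs is impossible
  have key : ∀ v, D.curve e s = D.pos v → False := by
    intro v hv
    refine h v (D.pos_mem_arc ⟨s, hs, hv⟩) (D.pos_mem_arc ⟨t, ht, he.trans hv⟩)
  rcases hs.1.eq_or_lt with h0 | h0
  · exact key (ends e).1 (by rw [← h0]; exact D.curve_zero e)
  rcases hs.2.eq_or_lt with h1 | h1
  · exact key (ends e).2 (by rw [h1]; exact D.curve_one e)
  rcases ht.1.eq_or_lt with h2 | h2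
  · exact key (ends f).1 (by rw [← he, ← h2]; exact D.curve_zero f)
  rcases ht.2.eq_or_lt with h3 | h3
  · exact key (ends f).2 (by rw [← he, h3]; exact D.curve_one f)
  exact D.ne_curve e f hef s ⟨h0, h1⟩ t ⟨h2, h3⟩ he.symm

theorem Embedding.isCompact_drawn [Finite V] [Finite E] : IsCompact D.drawn :=
  (Set.finite_range D.pos).isCompact.union (isCompact_iUnion D.isCompact_arc)

theorem Embedding.arc_subset (e : E) : D.arc e ⊆ D.drawn :=
  (Set.subset_iUnion D.arc e).trans subset_union_right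

/-- Small discs around the vertices. -/
theorem Embedding.exists_radius [Finite E] (v : V) :
    ∃ ε > 0, ∀ e, v ≠ (ends e).1 → v ≠ (ends e).2 → Disjoint (ball (D.pos v) ε) (D.arc e) := by
  classical
  let C : Set ℂ := ⋃ e : {e : E // v ≠ (ends e).1 ∧ v ≠ (ends e).2}, D.arc e
  have hC : IsClosed C :=
    (isCompact_iUnion (fun e : {e : E // v ≠ (ends e).1 ∧ v ≠ (ends e).2} =>
      D.isCompact_arc e.1)).isClosed
  have hv : D.pos v ∈ Cᶜ := by
    intro h
    obtain ⟨e, he⟩ := Set.mem_iUnion.1 h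
    rcases D.pos_mem_arc he with h1 | h1
    · exact e.2.1 h1
    · exact e.2.2 h1
  obtain ⟨ε, hε, hb⟩ := Metric.isOpen_iff.1 hC.isOpen_compl _ hv
  refine ⟨ε, hε, fun e h1 h2 => ?_⟩
  rw [Set.disjoint_left]
  intro z hz he
  exact hb hz (Set.mem_iUnion.2 ⟨⟨e, h1, h2⟩, he⟩)

/-- **Theta graphs.** Let the lists `L a b` of edges join the vertices `a = 0, 1` to the
vertices `b = 0, 1, 2`, such that lists for different `a` and `b` have no common ends. Then the
multigraph is not outerplanar. -/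
theorem not_isOuterplanar [Finite V] [Finite E] (hub : Fin 2 → V) (m : Fin 3 → V)
    (L : Fin 2 → Fin 3 → Set E)
    (hjoin : ∀ D : Embedding ends, ∀ a b,
      JoinedIn (⋃ e ∈ L a b, D.arc e) (D.pos (hub a)) (D.pos (m b)))
    (hdis : ∀ a b a' b', a ≠ a' → b ≠ b' → ∀ e ∈ L a b, ∀ f ∈ L a' b', e ≠ f ∧
      ∀ v, (v = (ends e).1 ∨ v = (ends e).2) → (v = (ends f).1 ∨ v = (ends f).2) → False)
    (hinc : ∀ a b b', b ≠ b' → ∀ e ∈ L a b, m b' ≠ (ends e).1 ∧ m b' ≠ (ends e).2) :
    ¬ IsOuterplanar ends := by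
  rintro ⟨D, hD⟩
  have hKc := D.isCompact_drawn
  obtain ⟨R, hR0, hKR⟩ : ∃ R : ℝ, 0 ≤ R ∧ D.drawn ⊆ closedBall 0 R := by
    obtain ⟨C, hC⟩ := hKc.isBounded.exists_norm_le
    refine ⟨|C|, abs_nonneg C, fun z hz => ?_⟩
    rw [mem_closedBall, dist_zero_right]
    exact (hC z hz).trans (le_abs_self C)
  choose ε hε hball using fun v => D.exists_radius v
  -- the paths in the outer face
  have hout : ∀ b, JoinedIn (D.drawnᶜ ∪ ball (D.pos (m b)) (ε (m b))) ((R + 1 : ℝ) : ℂ)
      (D.pos (m b)) := by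
    intro b
    obtain ⟨z, hz1, hz2⟩ := Metric.mem_closure_iff.1 (hD (m b)).1 (ε (m b)) (hε (m b))
    have h1 := (joined_outer hKc.isClosed hKR hz1).symm.mono
      (subset_union_left (t := ball (D.pos (m b)) (ε (m b))))
    refine h1.trans (JoinedIn.mono ?_ subset_union_right)
    apply JoinedIn.of_segment_subset
    exact (convex_ball _ _).segment_subset (by rw [mem_ball']; exact hz2) (mem_ball_self (hε _))
  -- the sets
  let S2 : Fin 3 → Fin 3 → Set ℂ := fun a b =>
    if h : (a : ℕ) < 2 then ⋃ e ∈ L ⟨a, h⟩ b, D.arc e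
    else D.drawnᶜ ∪ ball (D.pos (m b)) (ε (m b))
  let p2 : Fin 3 → ℂ := fun a => if h : (a : ℕ) < 2 then D.pos (hub ⟨a, h⟩) else ((R + 1 : ℝ) : ℂ)
  have hS2 : ∀ a b, JoinedIn (S2 a b) (p2 a) (D.pos (m b)) := by
    intro a b
    by_cases h : (a : ℕ) < 2
    · simp only [S2, p2, dif_pos h]
      exact hjoin D _ _
    · simp only [S2, p2, dif_neg h]
      exact hout b
  have hcross : ∀ (a : Fin 3) (h : (a : ℕ) < 2) (b b' : Fin 3), b ≠ b' →
      Disjoint (⋃ e ∈ L ⟨a, h⟩ b, D.arc e) (D.drawnᶜ ∪ ball (D.pos (m b')) (ε (m b'))) := by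
    intro a h b b' hbb
    rw [Set.disjoint_left]
    intro z hz hz'
    simp only [mem_iUnion] at hz
    obtain ⟨e, he, hze⟩ := hz
    rcases hz' with hz' | hz'
    · exact hz' (D.arc_subset e hze)
    · obtain ⟨h1, h2⟩ := hinc _ _ b' hbb e he
      exact Set.disjoint_left.1 (hball (m b') e h1 h2) hz' hze
  have hdis2 : ∀ a b a' b', a ≠ a' → b ≠ b' → Disjoint (S2 a b) (S2 a' b') := by
    intro a b a' b' haa hbb
    by_cases h : (a : ℕ) < 2
    · by_cases h' : (a' : ℕ) < 2
      · simp only [S2, dif_pos h, dif_pos h']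
        rw [Set.disjoint_left]
        intro z hz hz'
        simp only [mem_iUnion] at hz hz'
        obtain ⟨e, he, hze⟩ := hz
        obtain ⟨f, hf, hzf⟩ := hz'
        obtain ⟨h1, h2⟩ := hdis ⟨a, h⟩ b ⟨a', h'⟩ b' (fun hc => haa (Fin.ext (by
          have := congrArg Fin.val hc
          simpa using this))) hbb e he f hf
        exact Set.disjoint_left.1 (D.disjoint_arc h1 h2) hze hzf
      · simp only [S2, dif_pos h, dif_neg h']
        exact hcross a h b b' hbb
    · by_cases h' : (a' : ℕ) < 2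
      · simp only [S2, dif_neg h, dif_pos h']
        exact (hcross a' h' b' b hbb.symm).symm
      · exfalso
        apply haa
        apply Fin.ext
        omega
  let r3 : Fin 6 → Fin 3 := fun a => ⟨(a : ℕ) % 3, Nat.mod_lt _ (by norm_num)⟩
  have hr_lo : ∀ a c : Fin 6, a < 3 → c < 3 → a ≠ c → r3 a ≠ r3 c := by decide
  have hr_hi : ∀ a c : Fin 6, 3 ≤ a → 3 ≤ c → a ≠ c → r3 a ≠ r3 c := by decide
  refine Pool.Agent.Helper805.CHS.VK.k33_joined
    (fun a => if a < 3 then p2 (r3 a) else D.pos (m (r3 a))) (fun a b => S2 (r3 a) (r3 b)) ?_ ?_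
  · intro a b ha hb
    simp only [if_pos ha, if_neg (not_lt.mpr hb)]
    exact hS2 _ _
  · intro a b c d ha hb hc hd hac hbd
    exact hdis2 _ _ _ _ (hr_lo a c ha hc hac) (hr_hi b d hb hd hbd)

end Run7.h773.OT
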